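import Mathlib

set_option autoImplicit false

/-!
# A metric space is not determined by its Euclidean square

`A = ℚ` and `B = √2 ℚ` (as subspaces of the real line) are not isometric, but the rotation by
`45°`, followed by a reflection, `(x, y) ↦ ((x + y)/√2, (x - y)/√2)`, is an isometry of `A²`
onto `B²`.
-/

namespace Pool.Agent.Results.MP_1231ed_gt.NotDetermined

/-- The Euclidean product metric on `A × A`. -/
noncomputable def sqDist {A : Type} [MetricSpace A] (p q : A × A) : ℝ :=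
  √(dist p.1 q.1 ^ 2 + dist p.2 q.2 ^ 2)

/-- The subspace `√2 ℚ` of the real line. -/
def B : Type := {x : ℝ // ∃ q : ℚ, x = √2 * q}

noncomputable instance : MetricSpace B := inferInstanceAs (MetricSpace {x : ℝ // ∃ q : ℚ, x = √2 * q})

/-- The point `√2 q`. -/
noncomputable def mk (q : ℚ) : B := ⟨√2 * q, q, rfl⟩

lemma dist_mk (p q : ℚ) : dist (mk p) (mk q) = |√2 * p - √2 * q| := rfl

lemma mk_inj {p q : ℚ} (h : mk p = mk q) : p = q := by
  have h1 : √2 * (p : ℝ) = √2 * q := congrArg Subtype.val h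
  have h2 : √2 ≠ 0 := by positivity
  exact_mod_cast mul_left_cancel₀ h2 h1

lemma mk_surj (x : B) : ∃ q, mk q = x := by
  obtain ⟨x, q, hq⟩ := x
  exact ⟨q, Subtype.ext hq.symm⟩

/-- The bijection `(x, y) ↦ ((x + y)/√2, (x - y)/√2)`. -/
noncomputable def rot (p : ℚ × ℚ) : B × B := (mk ((p.1 + p.2) / 2), mk ((p.1 - p.2) / 2))

lemma rot_bij : Function.Bijective rot := by
  constructor
  · rintro ⟨a, b⟩ ⟨c, d⟩ h
    have h1 := mk_inj (congrArg Prod.fst h)
    have h2 := mk_inj (congrArg Prod.snd h)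
    simp only at h1 h2
    ext <;> simp only <;> linarith
  · rintro ⟨x, y⟩
    obtain ⟨p, rfl⟩ := mk_surj x
    obtain ⟨q, rfl⟩ := mk_surj y
    refine ⟨(p + q, p - q), ?_⟩
    simp only [rot]
    congr 2 <;> ring

lemma rot_isom (p q : ℚ × ℚ) : sqDist (rot p) (rot q) = sqDist p q := by
  have hs : √2 ^ 2 = (2 : ℝ) := Real.sq_sqrt (by norm_num)
  unfold sqDist
  congr 1
  simp only [rot, dist_mk, Rat.dist_eq, sq_abs]
  push_cast
  linear_combination (((p.1 : ℝ) + p.2) / 2 - (q.1 + q.2) / 2) ^ 2 * hs +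
    (((p.1 : ℝ) - p.2) / 2 - (q.1 - q.2) / 2) ^ 2 * hs

/-- **Main result.** There are metric spaces `A`, `B` (subspaces of the real line) which are not
isometric although `A²` and `B²`, with the Euclidean product metric, are isometric. -/
theorem result :
    ∃ (A B : Type) (_ : MetricSpace A) (_ : MetricSpace B),
      (∃ φ : A × A ≃ B × B, ∀ p q, sqDist (φ p) (φ q) = sqDist p q) ∧
      ¬ ∃ ψ : A ≃ B, ∀ a a', dist (ψ a) (ψ a') = dist a a' := by
  refine ⟨ℚ, B, inferInstance, inferInstance,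
    ⟨Equiv.ofBijective rot rot_bij, fun p q => rot_isom p q⟩, ?_⟩
  rintro ⟨ψ, hψ⟩
  have h := hψ 1 0
  obtain ⟨p, hp⟩ := mk_surj (ψ 1)
  obtain ⟨q, hq⟩ := mk_surj (ψ 0)
  rw [← hp, ← hq, dist_mk, Rat.dist_eq] at h
  rw [← mul_sub, abs_mul, abs_of_nonneg (Real.sqrt_nonneg 2)] at h
  have h1 : (1 : ℝ) = √2 * ((|p - q| : ℚ) : ℝ) := by
    push_cast
    rw [h]; norm_num
  have hne : |p - q| ≠ 0 := by
    intro h0
    rw [h0] at h1
    norm_num at h1
  have hirr : Irrational (√2 * ((|p - q| : ℚ) : ℝ)) := irrational_sqrt_two.mul_ratCast hne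
  rw [← h1] at hirr
  exact hirr.ne_one rfl

end Pool.Agent.Results.MP_1231ed_gt.NotDetermined
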